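import Pool.Agent.Helper8.MB.C23

/-!
# C1: Dominator wins the gadget with the port dominated (tree of replies closed by pairings)
-/

set_option autoImplicit false

namespace Pool.Agent.Helper95.MBG

open Pool.Agent.Helper87.MB Pool.Agent.Helper8.MB

/-- a perfect pairing of the free vertices that meets every undominated closed neighbourhood in a
whole pair -/
def PW : ℕ → Finset (Fin 14) → Finset (Fin 14) → Prop
  | 0, F, U => F = ∅ ∧ U = ∅
  | k + 1, F, U => ∃ a ∈ F, ∃ b ∈ F, a ≠ b ∧ PW k ((F.erase a).erase b) (U \ (NH a ∩ NH b))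

theorem PW_mono (k : ℕ) : ∀ (F U U' : Finset (Fin 14)), U' ⊆ U → PW k F U → PW k F U' := by
  induction k with
  | zero =>
    intro F U U' h hp
    obtain ⟨h1, h2⟩ := hp
    refine ⟨h1, ?_⟩
    rw [h2] at h
    exact Finset.subset_empty.1 h
  | succ k ih =>
    intro F U U' h hp
    obtain ⟨a, ha, b, hb, hab, hp⟩ := hp
    exact ⟨a, ha, b, hb, hab, ih _ _ _ (Finset.sdiff_subset_sdiff h (Finset.Subset.refl _)) hp⟩

theorem PW_step (k : ℕ) : ∀ (F U : Finset (Fin 14)), PW (k + 1) F U → ∀ x ∈ F, ∃ y ∈ F.erase x,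
    PW k ((F.erase x).erase y) (U \ NH y) := by
  induction k with
  | zero =>
    intro F U hp x hx
    obtain ⟨a, ha, b, hb, hab, hp⟩ := hp
    by_cases hxa : x = a
    · subst hxa
      refine ⟨b, Finset.mem_erase.2 ⟨Ne.symm hab, hb⟩, PW_mono _ _ _ _ ?_ hp⟩
      intro w hw
      simp only [Finset.mem_sdiff, Finset.mem_inter] at hw ⊢
      tauto
    · by_cases hxb : x = b
      · subst hxb
        refine ⟨a, Finset.mem_erase.2 ⟨hab, ha⟩, ?_⟩
        rw [Finset.erase_right_comm]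
        refine PW_mono _ _ _ _ ?_ hp
        intro w hw
        simp only [Finset.mem_sdiff, Finset.mem_inter] at hw ⊢
        tauto
      · exfalso
        have h1 : x ∈ (F.erase a).erase b :=
          Finset.mem_erase.2 ⟨hxb, Finset.mem_erase.2 ⟨hxa, hx⟩⟩
        rw [hp.1] at h1
        simp at h1
  | succ k ih =>
    intro F U hp x hx
    obtain ⟨a, ha, b, hb, hab, hp⟩ := hp
    by_cases hxa : x = a
    · subst hxa
      refine ⟨b, Finset.mem_erase.2 ⟨Ne.symm hab, hb⟩, PW_mono _ _ _ _ ?_ hp⟩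
      intro w hw
      simp only [Finset.mem_sdiff, Finset.mem_inter] at hw ⊢
      tauto
    · by_cases hxb : x = b
      · subst hxb
        refine ⟨a, Finset.mem_erase.2 ⟨hab, ha⟩, ?_⟩
        rw [Finset.erase_right_comm]
        refine PW_mono _ _ _ _ ?_ hp
        intro w hw
        simp only [Finset.mem_sdiff, Finset.mem_inter] at hw ⊢
        tauto
      · have h1 : x ∈ (F.erase a).erase b :=
          Finset.mem_erase.2 ⟨hxb, Finset.mem_erase.2 ⟨hxa, hx⟩⟩
        obtain ⟨y, hy, hq⟩ := ih _ _ hp x h1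
        simp only [Finset.mem_erase] at hy
        obtain ⟨hyx, hyb, hya, hyF⟩ := hy
        refine ⟨y, Finset.mem_erase.2 ⟨hyx, hyF⟩, a, ?_, b, ?_, hab, ?_⟩
        · exact Finset.mem_erase.2 ⟨Ne.symm hya, Finset.mem_erase.2 ⟨Ne.symm hxa, ha⟩⟩
        · exact Finset.mem_erase.2 ⟨Ne.symm hyb, Finset.mem_erase.2 ⟨Ne.symm hxb, hb⟩⟩
        · have e1 : (((F.erase x).erase y).erase a).erase b
              = (((F.erase a).erase b).erase x).erase y := by
            ext w
            simp only [Finset.mem_erase]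
            tauto
          have e2 : (U \ NH y) \ (NH a ∩ NH b) = (U \ (NH a ∩ NH b)) \ NH y := by
            ext w
            simp only [Finset.mem_sdiff, Finset.mem_inter]
            tauto
          rw [e1, e2]
          exact hq

theorem PW_SW (k : ℕ) : ∀ (F U : Finset (Fin 14)), PW k F U → SW NH k F U := by
  induction k with
  | zero =>
    intro F U hp
    exact Or.inl hp.2
  | succ k ih =>
    intro F U hp
    rw [SW_iff]
    right
    refine ⟨?_, ?_⟩
    · obtain ⟨a, ha, _⟩ := hp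
      exact ⟨a, ha⟩
    · intro x hx
      rw [DW_succ]
      right
      obtain ⟨y, hy, hq⟩ := PW_step k F U hp x hx
      exact ⟨y, hy, ih _ _ hq⟩

/-- check a pairing written on the tape -/
def pr : ℕ → ℕ → ℕ → List ℕ → Option (List ℕ)
  | 0, F, U, t => if F = 0 ∧ U = 0 then some t else none
  | k + 1, F, U, t =>
    match t with
    | a :: b :: s =>
      if a < 14 ∧ b < 14 ∧ F.testBit a = true ∧ F.testBit b = true ∧ a ≠ b then
        pr k (clr (clr F (2 ^ a)) (2 ^ b)) (clr U (nm a &&& nm b)) s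
      else none
    | _ => none

theorem toF_zero : toF 0 = ∅ := by
  ext v
  rw [mem_toF]
  simp

theorem toF_inter (U : ℕ) (a b : Fin 14) :
    toF (clr U (nm a.1 &&& nm b.1)) = toF U \ (NH a ∩ NH b) := by
  ext v
  rw [Finset.mem_sdiff, mem_toF, mem_toF, testBit_clr, Nat.testBit_and, nm_spec, nm_spec,
    Finset.mem_inter]
  simp
  tauto

theorem pr_spec (k : ℕ) : ∀ (F U : ℕ) (t t' : List ℕ), pr k F U t = some t' →
    PW k (toF F) (toF U) := by
  induction k with
  | zero =>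
    intro F U t t' h
    unfold pr at h
    split_ifs at h with h1
    rw [h1.1, h1.2]
    exact ⟨toF_zero, toF_zero⟩
  | succ k ih =>
    intro F U t t' h
    match t, h with
    | [], h => simp [pr] at h
    | [_], h => simp [pr] at h
    | a :: b :: s, h =>
      unfold pr at h
      simp only at h
      split_ifs at h with h1
      obtain ⟨ha, hb, haF, hbF, hab⟩ := h1
      have h2 := ih _ _ _ _ h
      have e1 := toF_erase F ⟨a, ha⟩
      have e2 := toF_erase (clr F (2 ^ a)) ⟨b, hb⟩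
      have e3 := toF_inter U ⟨a, ha⟩ ⟨b, hb⟩
      simp only at e1 e2 e3
      rw [e2, e1, e3] at h2
      refine ⟨⟨a, ha⟩, (mem_toF _ _).2 haF, ⟨b, hb⟩, (mem_toF _ _).2 hbF, ?_, h2⟩
      intro e
      exact hab (congrArg Fin.val e)

/-- the checker for Dominator: the tape contains the replies, closed by pairings -/
def win : ℕ → ℕ → ℕ → List ℕ → Option (List ℕ)
  | 0, _, U, t => if U = 0 then some t else none
  | k + 1, F, U, t =>
    if U = 0 then some t else
    match t with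
    | [] => none
    | m :: t' =>
      if m = 14 then pr (k + 1) F U t'
      else if F = 0 then none
      else goAll (fun x s => if F.testBit x then
          match s with
          | [] => none
          | y :: s' =>
            if y < 14 ∧ (clr F (2 ^ x)).testBit y = true then
              win k (clr (clr F (2 ^ x)) (2 ^ y)) (clr U (nm y)) s'
            else none
        else some s) vs t'

theorem win_spec (k : ℕ) : ∀ (F U : ℕ) (t t' : List ℕ), F < 16384 → win k F U t = some t' →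
    SW NH k (toF F) (toF U) := by
  induction k with
  | zero =>
    intro F U t t' _ h
    unfold win at h
    split_ifs at h with h1
    rw [h1]
    exact Or.inl toF_zero
  | succ k ih =>
    intro F U t t' hF h
    unfold win at h
    by_cases h1 : U = 0
    · rw [h1]
      exact Or.inl toF_zero
    · rw [if_neg h1] at h
      cases t with
      | nil => simp at h
      | cons m t =>
        by_cases h2 : m = 14
        · simp only [h2, if_true] at h
          exact PW_SW _ _ _ (pr_spec _ _ _ _ _ h)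
        · by_cases h3 : F = 0
          · simp [h2, h3] at h
          simp only [h2, h3, if_false] at h
          have hall := goAll_spec _ _ _ _ h
          rw [SW_iff]
          right
          refine ⟨?_, ?_⟩
          · by_contra he
            rw [Finset.not_nonempty_iff_eq_empty] at he
            refine h3 (Nat.eq_of_testBit_eq fun i => ?_)
            rw [Nat.zero_testBit]
            by_cases hi : i < 14
            · have : (⟨i, hi⟩ : Fin 14) ∉ toF F := by rw [he]; simp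
              rw [mem_toF] at this
              simpa using this
            · exact Nat.testBit_lt_two_pow (lt_of_lt_of_le hF
                (by
                  have : 2 ^ 14 ≤ 2 ^ i := Nat.pow_le_pow_right (by norm_num) (by omega)
                  simpa using this))
          · intro x hx
            obtain ⟨a, b, hab⟩ := hall x.1 (mem_vs x)
            have hxF : F.testBit x.1 = true := (mem_toF _ _).1 hx
            simp only [hxF, if_true] at hab
            cases a with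
            | nil => simp at hab
            | cons y a =>
              simp only at hab
              split_ifs at hab with h4
              obtain ⟨hy, hyF⟩ := h4
              rw [DW_succ]
              right
              have e1 := toF_erase F x
              have e2 := toF_erase (clr F (2 ^ x.1)) ⟨y, hy⟩
              have e3 := toF_sdiff U ⟨y, hy⟩
              simp only at e1 e2 e3
              refine ⟨⟨y, hy⟩, ?_, ?_⟩
              · rw [← e1]
                exact (mem_toF _ _).2 hyF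
              · rw [← e1, ← e2, ← e3]
                refine ih _ _ _ _ ?_ hab
                refine Nat.lt_pow_two_of_testBit (n := 14) _ ?_
                intro i hi
                have hFi : F.testBit i = false := Nat.testBit_lt_two_pow (lt_of_lt_of_le hF
                  (by
                    have : 2 ^ 14 ≤ 2 ^ i := Nat.pow_le_pow_right (by norm_num) hi
                    simpa using this))
                rw [testBit_clr, testBit_clr, hFi]
                simp

/-- the tape -/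
def tape : List ℕ := [15, 2, 14, 7, 10, 4, 8, 5, 13, 1, 11, 3, 12, 6, 9, 2, 15, 3, 14, 5, 13, 7, 10, 11, 12, 4, 8, 6, 
9, 0, 14, 4, 12, 11, 13, 6, 9, 5, 8, 7, 10, 8, 14, 3, 12, 11, 13, 0, 5, 7, 10, 6, 9, 8, 14, 0, 
13, 11, 12, 3, 4, 6, 9, 7, 10, 0, 14, 11, 13, 5, 8, 4, 12, 3, 9, 7, 10, 0, 14, 11, 13, 5, 8, 4, 
12, 3, 6, 9, 10, 4, 14, 5, 13, 11, 12, 0, 7, 3, 6, 9, 10, 0, 14, 11, 13, 5, 8, 4, 12, 3, 6, 7, 
10, 0, 14, 11, 13, 5, 8, 4, 12, 3, 6, 7, 9, 8, 14, 12, 13, 3, 4, 6, 9, 0, 5, 7, 10, 8, 14, 11, 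
13, 3, 4, 6, 9, 0, 5, 7, 10, 8, 14, 11, 12, 3, 4, 6, 9, 0, 5, 7, 10, 0, 14, 3, 6, 1, 11, 7, 10, 
4, 12, 5, 8, 9, 13, 2, 14, 6, 9, 4, 8, 5, 13, 1, 12, 0, 7, 10, 11, 12, 15, 2, 14, 5, 8, 1, 13, 
7, 10, 3, 6, 9, 11, 0, 14, 5, 8, 2, 11, 3, 6, 7, 9, 10, 13, 0, 14, 3, 6, 5, 8, 1, 11, 7, 10, 9, 
13, 0, 14, 2, 6, 5, 8, 1, 11, 7, 9, 10, 13, 8, 15, 2, 14, 1, 13, 7, 10, 3, 6, 9, 11, 0, 14, 2, 
11, 3, 6, 7, 9, 10, 13, 0, 14, 3, 6, 1, 11, 7, 10, 9, 13, 0, 14, 2, 6, 1, 11, 7, 9, 10, 13, 0, 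
14, 2, 3, 1, 11, 7, 10, 9, 13, 0, 14, 2, 3, 1, 11, 6, 10, 9, 13, 0, 14, 2, 3, 1, 11, 6, 7, 10, 
13, 0, 14, 2, 3, 1, 11, 6, 7, 9, 13, 0, 14, 1, 2, 3, 6, 7, 10, 9, 13, 0, 14, 2, 3, 1, 11, 6, 7, 
9, 10, 0, 14, 2, 3, 5, 8, 1, 11, 7, 10, 9, 13, 0, 14, 5, 8, 2, 3, 1, 11, 6, 10, 9, 13, 5, 14, 
3, 6, 0, 2, 1, 11, 7, 10, 9, 13, 0, 14, 5, 8, 2, 3, 1, 11, 6, 7, 10, 13, 0, 14, 5, 8, 2, 3, 1, 
11, 6, 7, 9, 13, 0, 14, 5, 8, 1, 2, 3, 6, 7, 10, 9, 13, 0, 14, 5, 8, 2, 3, 1, 11, 6, 7, 9, 10, 
8, 15, 2, 14, 1, 13, 7, 10, 3, 4, 6, 9, 11, 12, 2, 14, 0, 13, 11, 12, 3, 4, 6, 9, 7, 10, 0, 14, 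
3, 6, 1, 11, 7, 10, 4, 12, 9, 13, 2, 14, 6, 9, 1, 4, 0, 13, 11, 12, 7, 10, 0, 14, 2, 6, 1, 11, 
3, 12, 7, 9, 10, 13, 2, 14, 3, 9, 1, 4, 0, 13, 11, 12, 7, 10, 0, 14, 2, 6, 1, 11, 3, 9, 4, 12, 
10, 13, 0, 14, 3, 6, 1, 2, 4, 12, 11, 13, 7, 10, 0, 14, 2, 6, 1, 11, 3, 9, 4, 12, 7, 13, 1, 14, 
3, 6, 2, 7, 0, 10, 4, 9, 12, 13, 1, 14, 3, 6, 0, 2, 7, 10, 4, 9, 11, 13, 0, 14, 1, 11, 2, 3, 4, 
12, 6, 9, 7, 10, 2, 14, 3, 9, 4, 8, 5, 13, 1, 12, 0, 7, 10, 11, 0, 14, 4, 8, 5, 13, 1, 11, 3, 
12, 2, 6, 9, 10, 4, 14, 5, 13, 0, 7, 2, 10, 3, 6, 1, 11, 9, 12, 0, 14, 3, 6, 4, 8, 5, 13, 1, 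
12, 2, 11, 7, 10, 0, 14, 4, 8, 5, 13, 1, 11, 3, 12, 2, 6, 7, 9, 1, 14, 4, 8, 5, 13, 0, 7, 2, 
10, 3, 6, 9, 12, 1, 14, 4, 8, 5, 13, 0, 7, 2, 10, 3, 6, 9, 11, 0, 14, 5, 8, 4, 12, 1, 11, 3, 6, 
2, 7, 9, 10]

/-- C1 -/
theorem c1 : C1 := by
  have h : (win 7 16383 15871 tape).isSome = true := by decide +kernel
  obtain ⟨t, ht⟩ := Option.isSome_iff_exists.1 h
  have h2 := win_spec _ _ _ _ _ (by norm_num) ht
  rwa [toF_full, toF_port] at h2

end Pool.Agent.Helper95.MBG
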